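import Pool.Agent.Helper95.AU.Defs
import Pool.Agent.Helper8.AF.Five
import Pool.Agent.Helper35.AF.FormInt
import Pool.Agent.Helper68.AF.Core
import Pool.Agent.Helper44.AF.Good

/-! # Project AU (MP_9ee088_an), block U1: the loss at a junction with five noise steps -/

set_option autoImplicit false
open MeasureTheory Real Set Filter Topology
open scoped ENNReal

namespace Pool.Agent.Helper8.AU

open Pool.Agent.Helper18.UC (nn LL sqo rep toT nn_mul nn_nonneg)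
open Pool.Agent.Helper46.QP (TT Td)
open Pool.Agent.Helper95.AF
open Pool.Agent.Helper95.AU (lo)
open Pool.Agent.Helper68.AF

lemma nn_mt (a x : ℝ) : nn (mt a x) ≤ 8 * (|a| + 1) := by
  have hπ := Real.pi_lt_d2
  have hπ0 := Real.pi_pos
  have he1 : |2 + 2 * π * a * Real.cos (2 * π * x)| ≤ 2 + 2 * π * |a| := by
    refine (abs_add_le _ _).trans ?_
    rw [abs_of_pos (by norm_num : (0:ℝ) < 2), abs_mul, abs_mul, abs_of_pos (by positivity : 0 < 2 * π)]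
    have h1 := Real.abs_cos_le_one (2 * π * x)
    have h2 : 2 * π * |a| * |Real.cos (2 * π * x)| ≤ 2 * π * |a| * 1 := by gcongr
    linarith
  have e : nn (mt a x) = |2 + 2 * π * a * Real.cos (2 * π * x)| + 1 + 1 + 0 := by
    unfold nn Pool.Agent.Helper95.AF.mt
    simp
  rw [e]
  nlinarith [abs_nonneg a]

lemma nn_mt_mul (a x : ℝ) {B : Matrix (Fin 2) (Fin 2) ℝ} {y : ℝ} (h : nn B ≤ y) : nn (mt a x * B) ≤ 8 * (|a| + 1) * y :=
  (nn_mul _ _).trans (mul_le_mul (nn_mt a x) h (nn_nonneg B) (by positivity))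

/-- the size of a vector of a matrix -/
lemma nv_le_nn (B : Matrix (Fin 2) (Fin 2) ℝ) (j : Fin 2) : nv (B.mulVec (Pi.single j 1)) ≤ nn B := by
  have e : ∀ i, B.mulVec (Pi.single j 1) i = B i j := by
    intro i
    rw [Matrix.mulVec_single_one]
    rfl
  unfold nv nn
  rw [e, e]
  have h := fun i k : Fin 2 => abs_nonneg (B i k)
  fin_cases j
  · show |B 0 0| + |B 1 0| ≤ _
    linarith [h 0 1, h 1 1]
  · show |B 0 1| + |B 1 1| ≤ _
    linarith [h 0 0, h 1 0]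

/-- the larger column -/
lemma col_big (B : Matrix (Fin 2) (Fin 2) ℝ) : ∃ j : Fin 2, nn B ≤ 2 * nv (B.mulVec (Pi.single j 1)) := by
  have e : ∀ i j, B.mulVec (Pi.single j 1) i = B i j := by
    intro i j
    rw [Matrix.mulVec_single_one]
    rfl
  rcases le_total (|B 0 1| + |B 1 1|) (|B 0 0| + |B 1 0|) with h | h
  · refine ⟨0, ?_⟩
    unfold nv nn
    rw [e, e]
    linarith
  · refine ⟨1, ?_⟩
    unfold nv nn
    rw [e, e]
    linarith

/-- the vector is at least the form (`vec68` for every start vector) -/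
theorem vec8 (p a : ℝ) (hp : 0 ≤ p) (b : ℕ → ℝ) (n : ℕ) (P : Matrix (Fin 2) (Fin 2) ℝ) (x0 x1 x2 x3 : ℝ) (w : ℝ × ℝ)
    (E : Fin 2 → ℝ) :
    ip p (nv ((pM a b n w * (mt a w.2 * (mt a x3 * (mt a x2 * (mt a x1 * (mt a x0 * P)))))).mulVec E)) ≤
      Ph68 p a b n ((mt a x0 * P).mulVec E) x1 x2 x3 w := by
  unfold Ph68
  refine ip_anti68 hp ?_
  have e : (pM a b n w * (mt a w.2 * (mt a x3 * (mt a x2 * (mt a x1 * (mt a x0 * P)))))).mulVec E =
      (pM a b n w * mt a w.2).mulVec ((mt a x3 * mt a x2 * mt a x1).mulVec ((mt a x0 * P).mulVec E)) := by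
    simp only [Matrix.mulVec_mulVec, mul_assoc]
  rw [e]
  set U := (mt a x3 * mt a x2 * mt a x1).mulVec ((mt a x0 * P).mulVec E)
  have hi : ∀ i : Fin 2, |∑ j, row68 a (pM a b n w) w.2 i j * U j| ≤ nv ((pM a b n w * mt a w.2).mulVec U) := by
    intro i
    have h1 : ∑ j, row68 a (pM a b n w) w.2 i j * U j = ((pM a b n w * mt a w.2).mulVec U) i := rfl
    rw [h1]
    unfold nv
    fin_cases i
    · exact le_add_of_nonneg_right (abs_nonneg _)
    · exact le_add_of_nonneg_left (abs_nonneg _)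
  by_cases h : nv (row68 a (pM a b n w) w.2 1) ≤ nv (row68 a (pM a b n w) w.2 0)
  · have e1 : ∀ j, W68 a b n w j = row68 a (pM a b n w) w.2 0 j := fun j => if_pos h
    simp only [e1]
    exact hi 0
  · have e1 : ∀ j, W68 a b n w j = row68 a (pM a b n w) w.2 1 j := fun j => if_neg h
    simp only [e1]
    exact hi 1

/-- `x ^ p x ^ (-p) ≤ 1` in the extended sense -/
lemma rp_ip {p x : ℝ} (hp : 0 < p) (hx : 0 ≤ x) : ENNReal.ofReal (x ^ p) * ip p x ≤ 1 := by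
  rcases hx.eq_or_lt with rfl | hx
  · rw [Real.zero_rpow hp.ne', ENNReal.ofReal_zero, zero_mul]
    exact zero_le_one
  · unfold ip
    rw [← ENNReal.ofReal_rpow_of_pos hx, ← ENNReal.rpow_add _ _ (by positivity) ENNReal.ofReal_ne_top, add_neg_cancel,
      ENNReal.rpow_zero]

/-- **U1**: the loss at a junction with five noise steps, for every starting point -/
theorem junc : ∃ C : ℝ, 1 ≤ C ∧ ∀ (a ρ : ℝ) (m : ℕ) (b : ℕ → ℝ) (q : ℝ × ℝ), 1 ≤ |a| → 0 < ρ → ρ ≤ 1 →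
    ∫⁻ t, ENNReal.ofReal (Real.exp (lo a (up5 b m (ρ / (10 * (|a| + 1)) ^ 5) t) (m + 5) q / 4)) ∂un5 ≤
      ENNReal.ofReal ((C * (|a| + 1) / ρ) ^ 40) := by
  obtain ⟨K, hK1, hK⟩ := Pool.Agent.Helper35.AF.form_int
  refine ⟨10 ^ 25 * (2 * K) ^ 3 * (8 ^ 5 * 196), ?_, ?_⟩
  · have : 1 ≤ (2 * K) ^ 3 := one_le_pow₀ (by linarith)
    nlinarith
  intro a ρ m b q ha h0 h1
  have ha0 : 0 ≤ |a| := abs_nonneg a
  set A : ℝ := |a| + 1 with hA
  have hA2 : 2 ≤ A := by linarith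
  have hA0 : 0 < A := by linarith
  set s : ℝ := ρ / (10 * A) ^ 5 with hs
  have hs0 : 0 < s := by positivity
  obtain ⟨c, κ, hfive⟩ := Pool.Agent.Helper8.AF.five (a := a) (ρ := ρ) (s := s) h0 hs b m q
  set P := pM a b m q with hP
  set x0 := (po a b m q).1 with hx0
  obtain ⟨j, hj⟩ := col_big P
  set E : Fin 2 → ℝ := Pi.single j 1 with hE
  set V := (mt a x0 * P).mulVec E with hV
  set V0 := P.mulVec E with hV0
  have hVV : nv V0 ≤ 7 * A * nv V := by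
    have h2 := mt_nv68 a x0 V0
    rw [hV0, Matrix.mulVec_mulVec, ← hV, ← hV0] at h2
    exact h2
  set k : ℝ := 8 ^ 5 * 196 * A ^ 7 with hk
  have hk0 : 0 < k := by positivity
  set Φ : ℝ × ℝ × ℝ × (ℝ × ℝ) → ℝ≥0∞ := fun u =>
    ENNReal.ofReal (k ^ (1 / 4 : ℝ)) * (ENNReal.ofReal ((nv (W68 a (shb b (m + 5)) (m + 5) u.2.2.2) * nv V) ^ (1 / 4 : ℝ)) *
      Ph68 (1 / 4) a (shb b (m + 5)) (m + 5) V u.1 u.2.1 u.2.2.1 u.2.2.2) with hΦ
  have hnvW : Measurable fun w : ℝ × ℝ => nv (W68 a (shb b (m + 5)) (m + 5) w) := by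
    unfold nv
    exact ((W_meas68 a (shb b (m + 5)) (m + 5) 0).norm).add ((W_meas68 a (shb b (m + 5)) (m + 5) 1).norm)
  have hΦm : Measurable Φ := by
    refine Measurable.const_mul (Measurable.mul ?_ (Ph_meas68 (1 / 4) a (shb b (m + 5)) (m + 5) V)) _
    refine ENNReal.measurable_ofReal.comp (((Measurable.mul_const ?_ _)).pow_const _)
    exact hnvW.comp (by fun_prop)
  -- pointwise
  have hpt : ∀ t, ENNReal.ofReal (Real.exp (lo a (up5 b m s t) (m + 5) q / 4)) ≤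
      Φ ((po a (up5 b m s t) (m + 1) q).1, (po a (up5 b m s t) (m + 2) q).1, (po a (up5 b m s t) (m + 3) q).1,
        po a (up5 b m s t) (m + 5) q) := by
    intro t
    set b' := up5 b m s t with hb'
    set w := po a b' (m + 5) q with hw
    have e1 : pM a (shb b' (m + 5)) (m + 5) w = pM a (shb b (m + 5)) (m + 5) w :=
      pM_congr68 (fun j _ => up5_out68 (Or.inr (by omega))) _
    have e2 : pM a b' (2 * (m + 5)) q = pM a (shb b (m + 5)) (m + 5) w *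
        (mt a w.2 * (mt a (po a b' (m + 3) q).1 *
          (mt a (po a b' (m + 2) q).1 * (mt a (po a b' (m + 1) q).1 * (mt a x0 * P))))) := by
      rw [two_mul]
      exact split68 a b m (m + 5) s t q
    have e3 : pM a b' (m + 5) q = mt a (po a b' (m + 4) q).1 * (mt a (po a b' (m + 3) q).1 *
        (mt a (po a b' (m + 2) q).1 * (mt a (po a b' (m + 1) q).1 * (mt a x0 * P)))) := by
      have e4 : pM a b' (m + 5) q = mt a (po a b' (m + 4) q).1 * (mt a (po a b' (m + 3) q).1 *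
        (mt a (po a b' (m + 2) q).1 * (mt a (po a b' (m + 1) q).1 * (mt a (po a b' m q).1 * pM a b' m q)))) := rfl
      have e5 : pM a b' m q = P := pM_congr68 (fun j hj => up5_out68 (Or.inl hj)) _
      have e6 : po a b' m q = po a b m q := po_congr68 (fun j hj => up5_out68 (Or.inl hj)) _
      rw [e4, e5, e6]
    have g1 : nn (pM a b' (m + 5) q) ≤ 8 * A * (8 * A * (8 * A * (8 * A * (8 * A * nn P)))) := by
      rw [e3]
      exact nn_mt_mul a _ (nn_mt_mul a _ (nn_mt_mul a _ (nn_mt_mul a _ (nn_mt_mul a _ le_rfl))))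
    have g2 : nn (pM a (shb b' (m + 5)) (m + 5) w) ≤ 14 * A * nv (W68 a (shb b (m + 5)) (m + 5) w) := by
      rw [e1]
      exact W_big68 a (shb b (m + 5)) (m + 5) w
    have g3 : nn (pM a b' (m + 5) q) * nn (pM a (shb b' (m + 5)) (m + 5) w) ≤
        k * (nv (W68 a (shb b (m + 5)) (m + 5) w) * nv V) := by
      have g4 : nn (pM a b' (m + 5) q) ≤ 8 ^ 5 * 14 * A ^ 6 * nv V := by
        refine g1.trans ?_
        have g5 : nn P ≤ 2 * (7 * A * nv V) := hj.trans (by linarith)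
        calc 8 * A * (8 * A * (8 * A * (8 * A * (8 * A * nn P)))) = 8 ^ 5 * A ^ 5 * nn P := by ring
          _ ≤ 8 ^ 5 * A ^ 5 * (2 * (7 * A * nv V)) := mul_le_mul_of_nonneg_left g5 (by positivity)
          _ = _ := by ring
      calc nn (pM a b' (m + 5) q) * nn (pM a (shb b' (m + 5)) (m + 5) w) ≤
          (8 ^ 5 * 14 * A ^ 6 * nv V) * (14 * A * nv (W68 a (shb b (m + 5)) (m + 5) w)) :=
            mul_le_mul g4 g2 (nn_nonneg _) (mul_nonneg (by positivity) (nv_nonneg68 V))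
        _ = _ := by rw [hk]; ring
    have p1 : ∀ (n : ℕ) (c : ℕ → ℝ) (z : ℝ × ℝ), 0 < nn (pM a c n z) := by
      intro n c z
      have := Pool.Agent.Helper44.AF.nn_ge1 a c n z
      linarith
    -- the exponential
    have e7 : Real.exp (lo a b' (m + 5) q / 4) = (nn (pM a b' (m + 5) q) * nn (pM a (shb b' (m + 5)) (m + 5) w)) ^ (1 / 4 : ℝ) *
        (nn (pM a b' (2 * (m + 5)) q)) ^ (-(1 / 4 : ℝ)) := by
      unfold Pool.Agent.Helper95.AU.lo
      rw [Real.rpow_def_of_pos (mul_pos (p1 _ _ _) (p1 _ _ _)), Real.rpow_def_of_pos (p1 _ _ _), ← Real.exp_add,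
        Real.log_mul (p1 _ _ _).ne' (p1 _ _ _).ne']
      congr 1
      ring
    rw [e7, ENNReal.ofReal_mul (Real.rpow_nonneg (mul_nonneg (nn_nonneg _) (nn_nonneg _)) _)]
    have h2 : ENNReal.ofReal ((nn (pM a b' (m + 5) q) * nn (pM a (shb b' (m + 5)) (m + 5) w)) ^ (1 / 4 : ℝ)) ≤
        ENNReal.ofReal (k ^ (1 / 4 : ℝ)) *
          ENNReal.ofReal ((nv (W68 a (shb b (m + 5)) (m + 5) w) * nv V) ^ (1 / 4 : ℝ)) := by
      rw [← ENNReal.ofReal_mul (by positivity), ← Real.mul_rpow hk0.le (mul_nonneg (nv_nonneg68 _) (nv_nonneg68 _))]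
      exact ENNReal.ofReal_le_ofReal (Real.rpow_le_rpow (mul_nonneg (nn_nonneg _) (nn_nonneg _)) g3 (by norm_num))
    have h3 : ENNReal.ofReal ((nn (pM a b' (2 * (m + 5)) q)) ^ (-(1 / 4 : ℝ))) ≤
        Ph68 (1 / 4) a (shb b (m + 5)) (m + 5) V (po a b' (m + 1) q).1 (po a b' (m + 2) q).1 (po a b' (m + 3) q).1 w := by
      have h4 : ENNReal.ofReal ((nn (pM a b' (2 * (m + 5)) q)) ^ (-(1 / 4 : ℝ))) = ip (1 / 4) (nn (pM a b' (2 * (m + 5)) q)) := by
        unfold ip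
        rw [ENNReal.ofReal_rpow_of_pos (p1 _ _ _)]
      rw [h4]
      refine (ip_anti68 (by norm_num) (nv_le_nn (pM a b' (2 * (m + 5)) q) j)).trans ?_
      rw [e2]
      exact vec8 (1 / 4) a (by norm_num) (shb b (m + 5)) (m + 5) P x0 _ _ _ w E
    calc _ ≤ (ENNReal.ofReal (k ^ (1 / 4 : ℝ)) *
          ENNReal.ofReal ((nv (W68 a (shb b (m + 5)) (m + 5) w) * nv V) ^ (1 / 4 : ℝ))) *
          Ph68 (1 / 4) a (shb b (m + 5)) (m + 5) V (po a b' (m + 1) q).1 (po a b' (m + 2) q).1 (po a b' (m + 3) q).1 w :=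
          mul_le_mul' h2 h3
      _ = _ := by rw [hΦ]; simp only; rw [mul_assoc]
  -- inner integrals
  have hin : ∀ w : ℝ × ℝ, ∫⁻ x₁ in Icc (c 0 - ρ / 2) (c 0 + ρ / 2), ∫⁻ x₂ in Icc (c 1 - ρ / 2) (c 1 + ρ / 2),
      ∫⁻ x₃ in Icc (c 2 - ρ / 2) (c 2 + ρ / 2), Φ (x₁, x₂, x₃, w) ≤
      ENNReal.ofReal (k ^ (1 / 4 : ℝ) * (ρ ^ 3 * (2 * K / ρ) ^ 3)) := by
    intro w
    have h3 := hK a (ρ / 2) (1 / 4) c (W68 a (shb b (m + 5)) (m + 5) w) V ha (by linarith) (by linarith) (by norm_num) le_rfl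
    have e1 : (2 * (ρ / 2)) ^ 3 * (K / (ρ / 2)) ^ (12 * (1 / 4 : ℝ)) = ρ ^ 3 * (2 * K / ρ) ^ 3 := by
      rw [show 2 * (ρ / 2) = ρ by ring, show K / (ρ / 2) = 2 * K / ρ by field_simp,
        show (12 : ℝ) * (1 / 4) = ((3 : ℕ) : ℝ) by norm_num, Real.rpow_natCast]
    rw [e1] at h3
    set X := ENNReal.ofReal ((nv (W68 a (shb b (m + 5)) (m + 5) w) * nv V) ^ (1 / 4 : ℝ)) with hX
    calc _ = ENNReal.ofReal (k ^ (1 / 4 : ℝ)) * (X * ∫⁻ x₁ in Icc (c 0 - ρ / 2) (c 0 + ρ / 2),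
          ∫⁻ x₂ in Icc (c 1 - ρ / 2) (c 1 + ρ / 2), ∫⁻ x₃ in Icc (c 2 - ρ / 2) (c 2 + ρ / 2),
          Ph68 (1 / 4) a (shb b (m + 5)) (m + 5) V x₁ x₂ x₃ w) := by
          simp only [hΦ]
          simp_rw [lintegral_const_mul' _ _ ENNReal.ofReal_ne_top]
          rfl
      _ ≤ ENNReal.ofReal (k ^ (1 / 4 : ℝ)) * (X * (ENNReal.ofReal (ρ ^ 3 * (2 * K / ρ) ^ 3) *
          ip (1 / 4) (nv (W68 a (shb b (m + 5)) (m + 5) w) * nv V))) := by
          refine mul_le_mul_right (mul_le_mul_right h3 _) _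
      _ = ENNReal.ofReal (k ^ (1 / 4 : ℝ)) * ENNReal.ofReal (ρ ^ 3 * (2 * K / ρ) ^ 3) *
          (X * ip (1 / 4) (nv (W68 a (shb b (m + 5)) (m + 5) w) * nv V)) := by ring
      _ ≤ ENNReal.ofReal (k ^ (1 / 4 : ℝ)) * ENNReal.ofReal (ρ ^ 3 * (2 * K / ρ) ^ 3) * 1 := by
          refine mul_le_mul_right ?_ _
          exact rp_ip (by norm_num) (mul_nonneg (nv_nonneg68 _) (nv_nonneg68 _))
      _ = _ := by rw [mul_one, ← ENNReal.ofReal_mul (by positivity)]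
  calc ∫⁻ t, ENNReal.ofReal (Real.exp (lo a (up5 b m s t) (m + 5) q / 4)) ∂un5
      ≤ ∫⁻ t, Φ ((po a (up5 b m s t) (m + 1) q).1, (po a (up5 b m s t) (m + 2) q).1, (po a (up5 b m s t) (m + 3) q).1,
        po a (up5 b m s t) (m + 5) q) ∂un5 := lintegral_mono hpt
    _ ≤ ENNReal.ofReal s⁻¹ ^ 5 * ∫⁻ w in sqo κ ρ, ∫⁻ x₁ in Icc (c 0 - ρ / 2) (c 0 + ρ / 2),
        ∫⁻ x₂ in Icc (c 1 - ρ / 2) (c 1 + ρ / 2), ∫⁻ x₃ in Icc (c 2 - ρ / 2) (c 2 + ρ / 2), Φ (x₁, x₂, x₃, w) :=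
        hfive Φ hΦm
    _ ≤ ENNReal.ofReal s⁻¹ ^ 5 * ∫⁻ _w in sqo κ ρ, ENNReal.ofReal (k ^ (1 / 4 : ℝ) * (ρ ^ 3 * (2 * K / ρ) ^ 3)) := by
        gcongr with w
        exact hin w
    _ = ENNReal.ofReal (s⁻¹ ^ 5 * (k ^ (1 / 4 : ℝ) * (ρ ^ 3 * (2 * K / ρ) ^ 3) * ρ ^ 2)) := by
        rw [lintegral_const, Measure.restrict_apply MeasurableSet.univ, univ_inter,
          Pool.Agent.Helper44.AF.vol_sqo κ h0.le, ← ENNReal.ofReal_mul (by positivity),
          ← ENNReal.ofReal_pow (by positivity), ← ENNReal.ofReal_mul (by positivity)]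
    _ ≤ ENNReal.ofReal ((10 ^ 25 * (2 * K) ^ 3 * (8 ^ 5 * 196) * A / ρ) ^ 40) := by
        refine ENNReal.ofReal_le_ofReal ?_
        have hk1 : k ^ (1 / 4 : ℝ) ≤ k := by
          have : 1 ≤ k := by
            rw [hk]
            have : 1 ≤ A ^ 7 := one_le_pow₀ (by linarith)
            nlinarith
          calc k ^ (1 / 4 : ℝ) ≤ k ^ (1 : ℝ) := Real.rpow_le_rpow_of_exponent_le this (by norm_num)
            _ = k := Real.rpow_one _
        set D : ℝ := 10 ^ 25 * (2 * K) ^ 3 * (8 ^ 5 * 196) with hD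
        have hD1 : 1 ≤ D := by
          have : 1 ≤ (2 * K) ^ 3 := one_le_pow₀ (by linarith)
          rw [hD]
          nlinarith
        calc s⁻¹ ^ 5 * (k ^ (1 / 4 : ℝ) * (ρ ^ 3 * (2 * K / ρ) ^ 3) * ρ ^ 2) ≤
            s⁻¹ ^ 5 * (k * (ρ ^ 3 * (2 * K / ρ) ^ 3) * ρ ^ 2) := by gcongr
          _ = D * A ^ 32 / ρ ^ 3 := by
              rw [hs, hk, hD]
              field_simp
          _ ≤ D ^ 40 * A ^ 40 / ρ ^ 40 := by
              have q1 : D ≤ D ^ 40 := le_self_pow₀ hD1 (by norm_num)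
              have q2 : A ^ 32 ≤ A ^ 40 := pow_le_pow_right₀ (by linarith) (by norm_num)
              have q3 : ρ ^ 40 ≤ ρ ^ 3 := pow_le_pow_of_le_one h0.le h1 (by norm_num)
              gcongr
          _ = (D * A / ρ) ^ 40 := by
              rw [div_pow, mul_pow D A 40]

end Pool.Agent.Helper8.AU
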